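import Pool.Agent.Helper86.Final

/-!
# Planar graphs with cycles of all lengths `3, ..., n`

Every planar graph with a cycle of each length `3, ..., n` has more than `n + log₂ n + C` edges as
soon as `n` is at least a tower of twos of height `C + 2 ⌊log₂ (C + 2)⌋ + 17`; that is, it has at
least `n + log₂ n + log* n - O(log log* n)` edges. So Jia's conjectured value `n + log₂ n + O(1)` is
not attained by planar graphs. Planarity is expressed by MacLane's criterion.
-/

namespace Pool.Agent.Results.MP_45f6a5_co.PlanarBound

/-- `z` is an element of the cycle space of `G`: a set of edges of `G` such that every vertex lies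
in an even number of them. -/
def IsEven {V : Type*} (G : SimpleGraph V) (z : Set (Sym2 V)) : Prop :=
  z ⊆ G.edgeSet ∧ ∀ v, Even {e | e ∈ z ∧ v ∈ e}.ncard

/-- MacLane's planarity criterion: the cycle space of `G` has a basis `F 0, ..., F (m - 1)` over
`ZMod 2` (every element `z` of the cycle space is the symmetric difference of the members of a
unique subfamily `A`) such that every edge lies in at most two members of the basis. -/
def MacLane {V : Type*} (G : SimpleGraph V) : Prop :=
  ∃ (m : ℕ) (F : Fin m → Set (Sym2 V)), (∀ i, IsEven G (F i)) ∧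
    (∀ e, {i | e ∈ F i}.ncard ≤ 2) ∧
    ∀ z, IsEven G z → ∃! A : Finset (Fin m), ∀ e, e ∈ z ↔ Odd {i | i ∈ A ∧ e ∈ F i}.ncard

/-- Towers of twos: `1, 2, 4, 16, 65536, ...`. -/
def tower : ℕ → ℕ
  | 0 => 1
  | k + 1 => 2 ^ tower k

theorem tower_eq (k : ℕ) : tower k = Helper86.tower k := by
  induction k with
  | zero => rfl
  | succ k ih =>
    change 2 ^ tower k = 2 ^ Helper86.tower k
    rw [ih]

theorem result (C n : ℕ) (hn : tower (C + 2 * Nat.log 2 (C + 2) + 17) ≤ n)
    (V : Type*) [Finite V] (G : SimpleGraph V) (hG : MacLane G)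
    (hcyc : ∀ k, 3 ≤ k → k ≤ n → ∃ (v : V) (p : G.Walk v v), p.IsCycle ∧ p.length = k) :
    (n : ℝ) + Real.logb 2 n + C < G.edgeSet.ncard := by
  rw [tower_eq] at hn
  exact Helper86.planar_bound C n hn G hG hcyc

end Pool.Agent.Results.MP_45f6a5_co.PlanarBound
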