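import Pool.Agent.Cyc.Reduction

/-!
# The fewest edges of a graph with all cycle lengths up to `n`

Let `g n` be the least number of edges of a finite simple graph which has a cycle of each length
`3, ..., n`. We show that `g n - n - log₂ n` tends to infinity. So the answer to Jia's question
whether `g n = n + log₂ n + O(1)` is negative.
-/

namespace Pool.Agent.Results.MP_45f6a5_co.Unbounded

open Filter

/-- the graph `G` has a cycle of length `k` for every `k` with `3 ≤ k ≤ n`. -/
def AllCycles {V : Type} (n : ℕ) (G : SimpleGraph V) : Prop :=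
  ∀ k, 3 ≤ k → k ≤ n → ∃ (v : V) (p : G.Walk v v), p.IsCycle ∧ p.length = k

/-- the least number of edges of a finite simple graph with a cycle of each length
`3, ..., n`; the number `N` of vertices is not restricted. -/
noncomputable def g (n : ℕ) : ℕ :=
  sInf {m | ∃ (N : ℕ) (G : SimpleGraph (Fin N)), AllCycles n G ∧ G.edgeSet.ncard = m}

theorem top_allCycles (n : ℕ) : AllCycles n (⊤ : SimpleGraph (Fin n)) := by
  intro k h3 hk
  rw [← SimpleGraph.cycleGraph_isContained_iff (by omega)]
  refine ⟨⟨⟨Fin.castLE hk, fun {a b} hab => ?_⟩, Fin.castLE_injective hk⟩⟩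
  rw [SimpleGraph.top_adj]
  exact fun h => hab.ne (Fin.castLE_injective hk h)

theorem g_spec (n : ℕ) : ∃ (N : ℕ) (G : SimpleGraph (Fin N)), AllCycles n G ∧
    G.edgeSet.ncard = g n := by
  have h : {m | ∃ (N : ℕ) (G : SimpleGraph (Fin N)), AllCycles n G ∧
      G.edgeSet.ncard = m}.Nonempty := ⟨_, n, ⊤, top_allCycles n, rfl⟩
  exact Nat.sInf_mem h

/-- `g n - n - log₂ n` tends to infinity. -/
theorem result : Tendsto (fun n : ℕ => (g n : ℝ) - n - Real.logb 2 n) atTop atTop := by
  rw [tendsto_atTop]
  intro b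
  obtain ⟨C, hC⟩ := exists_nat_ge b
  obtain ⟨n₀, hn₀⟩ := Cyc.main C
  rw [eventually_atTop]
  refine ⟨n₀, fun n hn => ?_⟩
  obtain ⟨N, G, hG, hE⟩ := g_spec n
  have h := hn₀ n hn N G hG
  rw [hE] at h
  linarith

end Pool.Agent.Results.MP_45f6a5_co.Unbounded
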